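import Mathlib

set_option autoImplicit false

open Complex Metric Filter Topology

namespace Pool.Agent.Results.MP_84a0b9_an.SharpArg

/-- The normalised generators on the unit disk: holomorphic functions `f` on the open unit disk with
`f 0 = 0`, `f' 0 = 1` and `Re (f z / z) ≥ 0` for `z ≠ 0` in the disk. -/
def ClassG0 : Set (ℂ → ℂ) :=
  {f | DifferentiableOn ℂ f (ball (0 : ℂ) 1) ∧ f 0 = 0 ∧ deriv f 0 = 1 ∧
    ∀ z : ℂ, ‖z‖ < 1 → z ≠ 0 → 0 ≤ (f z / z).re}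

/-- The class `H_α`: those `f` in `ClassG0` with
`Re [α |z|^2 f(z)/z + (1 - α) (1 - |z|^2) f'(z)] ≥ 0` on the unit disk. -/
def ClassH (α : ℝ) : Set (ℂ → ℂ) :=
  {f | f ∈ ClassG0 ∧ ∀ z : ℂ, ‖z‖ < 1 →
    0 ≤ ((α : ℂ) * (‖z‖ : ℂ) ^ 2 * (f z / z) +
      (1 - (α : ℂ)) * (1 - (‖z‖ : ℂ) ^ 2) * deriv f z).re}

/-- `B(G) = (2/π) sup_{f ∈ G} sup_{z} |Arg (f(z)/z)|`. -/
noncomputable def B (G : Set (ℂ → ℂ)) : ℝ :=
  (2 / Real.pi) * sSup {t : ℝ | ∃ f ∈ G, ∃ z : ℂ, ‖z‖ < 1 ∧ z ≠ 0 ∧ t = |arg (f z / z)|}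

/-- The auxiliary function `1 - c log (1 - z)`. -/
noncomputable def g (c : ℝ) (z : ℂ) : ℂ := 1 - (c : ℂ) * log (1 - z)

/-- The auxiliary function `p`. -/
noncomputable def p (c e : ℝ) (z : ℂ) : ℂ := (g c z)⁻¹ + I * (e : ℂ) * z

/-- The extremal family. -/
noncomputable def F (c e : ℝ) (z : ℂ) : ℂ := z * p c e z

lemma re_one_sub_pos {z : ℂ} (hz : ‖z‖ < 1) : 0 < (1 - z).re := by
  have h := Complex.re_le_norm z
  simp only [sub_re, one_re]
  linarith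

lemma norm_one_sub_pos {z : ℂ} (hz : ‖z‖ < 1) : 0 < ‖1 - z‖ := by
  have h := re_one_sub_pos hz
  have h2 := Complex.re_le_norm (1 - z)
  linarith

lemma norm_one_sub_lt {z : ℂ} (hz : ‖z‖ < 1) : ‖1 - z‖ < 2 := by
  have h := norm_sub_le (1 : ℂ) z
  simp only [norm_one] at h
  linarith

lemma g_re (c : ℝ) (z : ℂ) : (g c z).re = 1 - c * Real.log ‖1 - z‖ := by
  simp [g, Complex.log_re]

lemma g_im (c : ℝ) (z : ℂ) : (g c z).im = -(c * arg (1 - z)) := by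
  simp [g, Complex.log_im]

lemma g_re_ge {c : ℝ} (hc : 0 ≤ c) {z : ℂ} (hz : ‖z‖ < 1) : 1 - c ≤ (g c z).re := by
  rw [g_re]
  have h1 := norm_one_sub_pos hz
  have h2 := norm_one_sub_lt hz
  have h3 : Real.log ‖1 - z‖ ≤ ‖1 - z‖ - 1 := Real.log_le_sub_one_of_pos h1
  nlinarith

lemma mul_log_sq_le {x : ℝ} (hx : 0 < x) (hx2 : x < 2) : x * Real.log x ^ 2 ≤ 4 := by
  rcases le_total x 1 with h | h
  · set s := Real.sqrt x with hs
    have hs0 : 0 < s := Real.sqrt_pos.mpr hx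
    have hss : s * s = x := Real.mul_self_sqrt hx.le
    have hs1 : s ≤ 1 := by nlinarith
    have hl : Real.log x = 2 * Real.log s := by
      rw [← hss, Real.log_mul hs0.ne' hs0.ne']; ring
    have h1 : Real.log s⁻¹ ≤ s⁻¹ - 1 := Real.log_le_sub_one_of_pos (inv_pos.mpr hs0)
    rw [Real.log_inv] at h1
    have h2 : s * (-Real.log s) ≤ 1 - s := by
      have := mul_le_mul_of_nonneg_left h1 hs0.le
      rw [mul_sub, mul_inv_cancel₀ hs0.ne'] at this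
      linarith
    have h3 : Real.log s ≤ 0 := Real.log_nonpos hs0.le hs1
    have h4 : 0 ≤ s * (-Real.log s) := mul_nonneg hs0.le (by linarith)
    rw [hl, ← hss]
    have h5 : s * s * (2 * Real.log s) ^ 2 = 4 * (s * (-Real.log s)) ^ 2 := by ring
    rw [h5]
    nlinarith
  · have h1 : Real.log x ≤ x - 1 := Real.log_le_sub_one_of_pos hx
    have h2 : 0 ≤ Real.log x := Real.log_nonneg h
    nlinarith

lemma norm_g_sq_bound {c : ℝ} (hc : 0 ≤ c) (hc1 : c ≤ 1 / 24) {z : ℂ} (hz : ‖z‖ < 1) :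
    ‖1 - z‖ * ‖g c z‖ ^ 2 ≤ 6 := by
  have h1 := norm_one_sub_pos hz
  have h2 := norm_one_sub_lt hz
  have h3 : ‖g c z‖ ^ 2 = (1 - c * Real.log ‖1 - z‖) ^ 2 + (c * arg (1 - z)) ^ 2 := by
    rw [← Complex.normSq_eq_norm_sq, Complex.normSq_apply, g_re, g_im]
    ring
  have h4 := mul_log_sq_le h1 h2
  have h5 : |arg (1 - z)| ≤ Real.pi / 2 :=
    Complex.abs_arg_le_pi_div_two_iff.mpr (re_one_sub_pos hz).le
  have hpi := Real.pi_le_four
  have h6 : (c * arg (1 - z)) ^ 2 ≤ (1 / 12) ^ 2 := by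
    rw [sq_le_sq, abs_mul, abs_of_nonneg hc]
    rw [abs_of_pos (by norm_num : (0:ℝ) < 1 / 12)]
    have : |arg (1 - z)| ≤ 2 := by linarith
    have h7 : 0 ≤ |arg (1 - z)| := abs_nonneg _
    nlinarith
  set L := Real.log ‖1 - z‖ with hL
  set w := ‖1 - z‖ with hw
  have h8 : (1 - c * L) ^ 2 ≤ 2 + 2 * (c * L) ^ 2 := by nlinarith [sq_nonneg (1 + c * L)]
  have h9 : w * (c * L) ^ 2 ≤ 4 * (1 / 24) ^ 2 := by
    have : w * (c * L) ^ 2 = c ^ 2 * (w * L ^ 2) := by ring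
    rw [this]
    have hc2 : c ^ 2 ≤ (1 / 24) ^ 2 := by nlinarith
    have hwl : 0 ≤ w * L ^ 2 := by positivity
    nlinarith
  rw [h3]
  nlinarith

lemma g_ne_zero {c : ℝ} (hc : 0 ≤ c) (hc1 : c ≤ 1 / 24) {z : ℂ} (hz : ‖z‖ < 1) : g c z ≠ 0 := by
  intro h
  have h1 := g_re_ge hc hz
  rw [h] at h1
  simp at h1
  linarith

lemma one_sub_mem {z : ℂ} (hz : ‖z‖ < 1) : 1 - z ∈ slitPlane :=
  Or.inl (re_one_sub_pos hz)

lemma hasDerivAt_g (c : ℝ) {z : ℂ} (hz : ‖z‖ < 1) :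
    HasDerivAt (g c) ((c : ℂ) * (1 - z)⁻¹) z := by
  have h1 : HasDerivAt (fun y : ℂ => 1 - y) (-1) z := by
    simpa using (hasDerivAt_id z).const_sub 1
  have h2 : HasDerivAt (fun y : ℂ => log (1 - y)) (-1 / (1 - z)) z := h1.clog (one_sub_mem hz)
  have h3 := (h2.const_mul (c : ℂ)).const_sub 1
  refine h3.congr_deriv ?_
  rw [div_eq_mul_inv]
  ring

lemma hasDerivAt_p {c e : ℝ} (hc : 0 ≤ c) (hc1 : c ≤ 1 / 24) {z : ℂ} (hz : ‖z‖ < 1) :
    HasDerivAt (p c e) (-((c : ℂ) * (1 - z)⁻¹) / (g c z) ^ 2 + I * (e : ℂ)) z := by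
  have h1 := (hasDerivAt_g c hz).inv (g_ne_zero hc hc1 hz)
  have h2 : HasDerivAt (fun y : ℂ => I * (e : ℂ) * y) (I * (e : ℂ)) z := by
    simpa using (hasDerivAt_id z).const_mul (I * (e : ℂ))
  exact h1.add h2

lemma hasDerivAt_F {c e : ℝ} (hc : 0 ≤ c) (hc1 : c ≤ 1 / 24) {z : ℂ} (hz : ‖z‖ < 1) :
    HasDerivAt (F c e)
      (p c e z + z * (-((c : ℂ) * (1 - z)⁻¹) / (g c z) ^ 2 + I * (e : ℂ))) z := by
  have h1 := (hasDerivAt_id z).mul (hasDerivAt_p (e := e) hc hc1 hz)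
  refine h1.congr_deriv ?_
  simp

lemma p_re (c e : ℝ) (z : ℂ) : (p c e z).re = (g c z).re / ‖g c z‖ ^ 2 - e * z.im := by
  simp [p, Complex.inv_re, Complex.normSq_eq_norm_sq, sub_eq_add_neg]

lemma inv_normsq_lower {c : ℝ} (hc : 0 ≤ c) (hc1 : c ≤ 1 / 24) {z : ℂ} (hz : ‖z‖ < 1) :
    ‖1 - z‖ ≤ 6 / ‖g c z‖ ^ 2 := by
  have h := norm_g_sq_bound hc hc1 hz
  have hg : 0 < ‖g c z‖ ^ 2 := by
    have := norm_pos_iff.mpr (g_ne_zero hc hc1 hz)
    positivity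
  rw [le_div_iff₀ hg]
  exact h

lemma abs_im_le {z : ℂ} : |z.im| ≤ ‖1 - z‖ := by
  have h := Complex.abs_im_le_norm (1 - z)
  simpa using h

lemma one_sub_sq_le {z : ℂ} (hz : ‖z‖ < 1) : 1 - ‖z‖ ^ 2 ≤ 2 * ‖1 - z‖ := by
  have h := norm_sub_norm_le (1 : ℂ) z
  simp only [norm_one] at h
  have h0 := norm_nonneg z
  nlinarith

lemma p_re_nonneg {c e : ℝ} (hc : 0 ≤ c) (hc1 : c ≤ 1 / 24) (he : 0 ≤ e) (he1 : e ≤ 1 / 24)
    {z : ℂ} (hz : ‖z‖ < 1) : 0 ≤ (p c e z).re := by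
  rw [p_re]
  have h1 := g_re_ge hc hz
  have h2 := inv_normsq_lower hc hc1 hz
  have h3 := @abs_im_le z
  have hg : 0 < ‖g c z‖ ^ 2 := by
    have := norm_pos_iff.mpr (g_ne_zero hc hc1 hz)
    positivity
  have h4 : (23 / 24) * (1 / ‖g c z‖ ^ 2) ≤ (g c z).re / ‖g c z‖ ^ 2 := by
    rw [mul_one_div]
    gcongr
    linarith
  have h5 : e * z.im ≤ (1 / 24) * (6 * (1 / ‖g c z‖ ^ 2)) := by
    have : z.im ≤ 6 * (1 / ‖g c z‖ ^ 2) := by
      rw [mul_one_div]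
      exact (le_abs_self _).trans (h3.trans h2)
    have hpos : 0 ≤ 6 * (1 / ‖g c z‖ ^ 2) := by positivity
    calc e * z.im ≤ e * (6 * (1 / ‖g c z‖ ^ 2)) := mul_le_mul_of_nonneg_left this he
      _ ≤ _ := mul_le_mul_of_nonneg_right he1 hpos
  have hpos : 0 ≤ 1 / ‖g c z‖ ^ 2 := by positivity
  linarith

/-- The key inequality. -/
lemma key {α : ℝ} (h0 : 0 < α) (h1 : α < 2 / 3) {z : ℂ} (hz : ‖z‖ < 1) :
    0 ≤ α * ‖z‖ ^ 2 * (p (α / 16) (α / 72) z).re +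
      (1 - α) * (1 - ‖z‖ ^ 2) *
        (p (α / 16) (α / 72) z + z * (-(((α / 16 : ℝ) : ℂ) * (1 - z)⁻¹) / (g (α / 16) z) ^ 2 +
          I * ((α / 72 : ℝ) : ℂ))).re := by
  set c := α / 16 with hc
  set e := α / 72 with he
  have hc0 : 0 ≤ c := by positivity
  have hc1 : c ≤ 1 / 24 := by rw [hc]; linarith
  have he0 : 0 ≤ e := by positivity
  have hgre := g_re_ge hc0 hz
  have hlow := inv_normsq_lower hc0 hc1 hz
  have hg0 : 0 < ‖g c z‖ := norm_pos_iff.mpr (g_ne_zero hc0 hc1 hz)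
  have hg : 0 < ‖g c z‖ ^ 2 := by positivity
  have hw : 0 < ‖1 - z‖ := norm_one_sub_pos hz
  have him := @abs_im_le z
  have hsq := one_sub_sq_le hz
  have hz0 := norm_nonneg z
  set N := 1 / ‖g c z‖ ^ 2 with hN
  have hNpos : 0 < N := by positivity
  have hlow' : ‖1 - z‖ ≤ 6 * N := by rw [hN, mul_one_div]; exact hlow
  -- real part of the product term
  have hterm : |(z * (-((c : ℂ) * (1 - z)⁻¹) / (g c z) ^ 2)).re| ≤ c * (N / ‖1 - z‖) := by
    refine (Complex.abs_re_le_norm _).trans ?_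
    rw [norm_mul, norm_div, norm_neg, norm_mul, norm_inv, norm_pow, Complex.norm_real,
      Real.norm_of_nonneg hc0]
    have : ‖z‖ * (c * ‖1 - z‖⁻¹ / ‖g c z‖ ^ 2) = ‖z‖ * (c * (N / ‖1 - z‖)) := by
      rw [hN]; field_simp
    rw [this]
    have h2 : 0 ≤ c * (N / ‖1 - z‖) := by positivity
    nlinarith
  have hre : (p c e z + z * (-((c : ℂ) * (1 - z)⁻¹) / (g c z) ^ 2 + I * (e : ℂ))).re =
      (g c z).re * N - 2 * (e * z.im) + (z * (-((c : ℂ) * (1 - z)⁻¹) / (g c z) ^ 2)).re := by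
    rw [mul_add, add_re, add_re, p_re, hN, mul_one_div]
    have : (z * (I * (e : ℂ))).re = -(e * z.im) := by
      simp
      ring
    rw [this]
    ring
  have hpre : (p c e z).re = (g c z).re * N - e * z.im := by
    rw [p_re, hN, mul_one_div]
  rw [hre, hpre]
  set X := (z * (-((c : ℂ) * (1 - z)⁻¹) / (g c z) ^ 2)).re with hX
  set u := (g c z).re with hu
  set r := ‖z‖ with hr
  set w := ‖1 - z‖ with hwdef
  have hr2 : r ^ 2 < 1 := by nlinarith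
  have hD : 0 ≤ 1 - r ^ 2 := by linarith
  have hA : α / 2 ≤ α * r ^ 2 + (1 - α) * (1 - r ^ 2) := by nlinarith [sq_nonneg r]
  -- bound for the X term
  have hXb : (1 - α) * (1 - r ^ 2) * |X| ≤ 2 * c * N := by
    have e1 : (1 - r ^ 2) * |X| ≤ (2 * w) * (c * (N / w)) :=
      mul_le_mul hsq hterm (abs_nonneg _) (by positivity)
    have e2 : (2 * w) * (c * (N / w)) = 2 * c * N := by field_simp
    rw [e2] at e1
    have e3 : 0 ≤ (1 - r ^ 2) * |X| := mul_nonneg hD (abs_nonneg _)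
    have e4 : (1 - α) ≤ 1 := by linarith
    calc (1 - α) * (1 - r ^ 2) * |X| = (1 - α) * ((1 - r ^ 2) * |X|) := by ring
      _ ≤ 1 * ((1 - r ^ 2) * |X|) := mul_le_mul_of_nonneg_right e4 e3
      _ ≤ 2 * c * N := by rw [one_mul]; exact e1
  have hXlow : -(2 * c * N) ≤ (1 - α) * (1 - r ^ 2) * X := by
    have e5 : -|X| ≤ X := neg_abs_le X
    have e6 : 0 ≤ (1 - α) * (1 - r ^ 2) := mul_nonneg (by linarith) hD
    have e7 := mul_le_mul_of_nonneg_left e5 e6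
    linarith
  have hIm : e * z.im ≤ e * (6 * N) := by
    apply mul_le_mul_of_nonneg_left _ he0
    exact (le_abs_self _).trans (him.trans hlow')
  have hS : α * r ^ 2 + 2 * ((1 - α) * (1 - r ^ 2)) ≤ 3 := by nlinarith [sq_nonneg r]
  have hS0 : 0 ≤ α * r ^ 2 + 2 * ((1 - α) * (1 - r ^ 2)) := by
    have := mul_nonneg (by linarith : (0:ℝ) ≤ 1 - α) hD
    positivity
  have hImB : (α * r ^ 2 + 2 * ((1 - α) * (1 - r ^ 2))) * (e * z.im) ≤ 3 * (e * (6 * N)) := by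
    have : 0 ≤ e * (6 * N) := by positivity
    calc (α * r ^ 2 + 2 * ((1 - α) * (1 - r ^ 2))) * (e * z.im)
        ≤ (α * r ^ 2 + 2 * ((1 - α) * (1 - r ^ 2))) * (e * (6 * N)) :=
          mul_le_mul_of_nonneg_left hIm hS0
      _ ≤ 3 * (e * (6 * N)) := mul_le_mul_of_nonneg_right hS this
  have hmain : (α / 2) * ((1 - c) * N) ≤
      (α * r ^ 2 + (1 - α) * (1 - r ^ 2)) * (u * N) := by
    have q1 : 0 ≤ (1 - c) * N := by
      have : 0 ≤ 1 - c := by linarith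
      positivity
    have q2 : (1 - c) * N ≤ u * N := mul_le_mul_of_nonneg_right hgre hNpos.le
    calc (α / 2) * ((1 - c) * N) ≤ (α * r ^ 2 + (1 - α) * (1 - r ^ 2)) * ((1 - c) * N) :=
          mul_le_mul_of_nonneg_right hA q1
      _ ≤ _ := by
        apply mul_le_mul_of_nonneg_left q2
        linarith
  have htot : α * r ^ 2 * (u * N - e * z.im) + (1 - α) * (1 - r ^ 2) * (u * N - 2 * (e * z.im) + X)
      = (α * r ^ 2 + (1 - α) * (1 - r ^ 2)) * (u * N)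
        - (α * r ^ 2 + 2 * ((1 - α) * (1 - r ^ 2))) * (e * z.im)
        + (1 - α) * (1 - r ^ 2) * X := by ring
  rw [htot]
  have hfin : 0 ≤ (α / 2) * ((1 - c) * N) - 3 * (e * (6 * N)) - 2 * c * N := by
    have : (α / 2) * ((1 - c) * N) - 3 * (e * (6 * N)) - 2 * c * N =
        N * (α * (1 / 2 - c / 2 - 1 / 4 - 1 / 8)) := by
      rw [he, hc]; ring
    rw [this]
    apply mul_nonneg hNpos.le
    apply mul_nonneg h0.le
    linarith
  linarith

lemma g_zero (c : ℝ) : g c 0 = 1 := by simp [g]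

lemma p_zero (c e : ℝ) : p c e 0 = 1 := by simp [p, g_zero]

lemma F_mem {α : ℝ} (h0 : 0 < α) (h1 : α < 2 / 3) : F (α / 16) (α / 72) ∈ ClassH α := by
  have hc0 : 0 ≤ α / 16 := by positivity
  have hc1 : α / 16 ≤ 1 / 24 := by linarith
  have he0 : 0 ≤ α / 72 := by positivity
  have he1 : α / 72 ≤ 1 / 24 := by linarith
  have hdiv : ∀ z : ℂ, z ≠ 0 → F (α / 16) (α / 72) z / z = p (α / 16) (α / 72) z := by
    intro z hz
    simp only [F]
    field_simp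
  refine ⟨⟨?_, ?_, ?_, ?_⟩, ?_⟩
  · intro z hz
    have hz' : ‖z‖ < 1 := by simpa using hz
    exact (hasDerivAt_F hc0 hc1 hz').differentiableAt.differentiableWithinAt
  · simp [F]
  · have := (hasDerivAt_F (e := α / 72) hc0 hc1 (z := 0) (by simp)).deriv
    rw [this, p_zero]
    simp
  · intro z hz hz0
    rw [hdiv z hz0]
    exact p_re_nonneg hc0 hc1 he0 he1 hz
  · intro z hz
    have hk := key h0 h1 hz
    rw [(hasDerivAt_F (e := α / 72) hc0 hc1 hz).deriv]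
    have e1 : ((α : ℂ) * (‖z‖ : ℂ) ^ 2 * (F (α / 16) (α / 72) z / z)).re =
        α * ‖z‖ ^ 2 * (p (α / 16) (α / 72) z).re := by
      by_cases hz0 : z = 0
      · subst hz0
        simp
      · rw [hdiv z hz0]
        have : (α : ℂ) * (‖z‖ : ℂ) ^ 2 = ((α * ‖z‖ ^ 2 : ℝ) : ℂ) := by push_cast; ring
        rw [this, Complex.re_ofReal_mul]
    have e2 : ∀ q : ℂ, ((1 - (α : ℂ)) * (1 - (‖z‖ : ℂ) ^ 2) * q).re =
        (1 - α) * (1 - ‖z‖ ^ 2) * q.re := by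
      intro q
      have : (1 - (α : ℂ)) * (1 - (‖z‖ : ℂ) ^ 2) = (((1 - α) * (1 - ‖z‖ ^ 2) : ℝ) : ℂ) := by
        push_cast; ring
      rw [this, Complex.re_ofReal_mul]
    rw [add_re, e1, e2]
    exact hk

lemma tendsto_arg {c e : ℝ} (hc : 0 < c) (he : 0 < e) :
    Tendsto (fun x : ℝ => arg (p c e (x : ℂ))) (𝓝[<] (1 : ℝ)) (𝓝 (Real.pi / 2)) := by
  have hlim : Tendsto (fun x : ℝ => p c e (x : ℂ)) (𝓝[<] (1 : ℝ)) (𝓝 (I * (e : ℂ))) := by
    have h1 : Tendsto (fun x : ℝ => (1 : ℝ) - x) (𝓝[<] (1 : ℝ)) (𝓝[>] 0) := by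
      refine tendsto_nhdsWithin_iff.mpr ⟨?_, ?_⟩
      · have : Tendsto (fun x : ℝ => (1 : ℝ) - x) (𝓝 (1 : ℝ)) (𝓝 (1 - 1)) :=
          (continuous_const.sub continuous_id).tendsto 1
        rw [sub_self] at this
        exact this.mono_left nhdsWithin_le_nhds
      · filter_upwards [self_mem_nhdsWithin] with x hx
        simp only [Set.mem_Iio] at hx
        simp only [Set.mem_Ioi]
        linarith
    have h2 : Tendsto (fun x : ℝ => Real.log (1 - x)) (𝓝[<] (1 : ℝ)) atBot :=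
      Real.tendsto_log_nhdsGT_zero.comp h1
    have h3 : Tendsto (fun x : ℝ => 1 - c * Real.log (1 - x)) (𝓝[<] (1 : ℝ)) atTop := by
      have h4 : Tendsto (fun x : ℝ => -c * Real.log (1 - x)) (𝓝[<] (1 : ℝ)) atTop :=
        (tendsto_const_mul_atTop_of_neg (by linarith)).mpr h2
      have h5 := tendsto_atTop_add_const_left _ (1 : ℝ) h4
      refine h5.congr (fun x => by ring)
    have h6 : Tendsto (fun x : ℝ => (1 - c * Real.log (1 - x))⁻¹) (𝓝[<] (1 : ℝ)) (𝓝 0) :=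
      tendsto_inv_atTop_zero.comp h3
    have h7 : Tendsto (fun x : ℝ => (((1 - c * Real.log (1 - x))⁻¹ : ℝ) : ℂ))
        (𝓝[<] (1 : ℝ)) (𝓝 ((0 : ℝ) : ℂ)) :=
      (Complex.continuous_ofReal.tendsto 0).comp h6
    have h8 : Tendsto (fun x : ℝ => I * (e : ℂ) * (x : ℂ)) (𝓝[<] (1 : ℝ))
        (𝓝 (I * (e : ℂ) * ((1 : ℝ) : ℂ))) := by
      have : Continuous (fun x : ℝ => I * (e : ℂ) * (x : ℂ)) :=
        continuous_const.mul Complex.continuous_ofReal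
      exact (this.tendsto 1).mono_left nhdsWithin_le_nhds
    have h9 := h7.add h8
    have h10 : ((0 : ℝ) : ℂ) + I * (e : ℂ) * ((1 : ℝ) : ℂ) = I * (e : ℂ) := by simp
    rw [h10] at h9
    refine h9.congr' ?_
    filter_upwards [self_mem_nhdsWithin] with x hx
    simp only [Set.mem_Iio] at hx
    simp only [p, g]
    have : Complex.log (1 - (x : ℂ)) = ((Real.log (1 - x) : ℝ) : ℂ) := by
      rw [Complex.ofReal_log (by linarith)]
      push_cast
      rfl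
    rw [this]
    push_cast
    rfl
  have hmem : I * (e : ℂ) ∈ slitPlane := by
    refine Or.inr ?_
    simp [he.ne']
  have harg : arg (I * (e : ℂ)) = Real.pi / 2 := by
    rw [mul_comm, Complex.arg_real_mul _ he, Complex.arg_I]
  have := (Complex.continuousAt_arg hmem).tendsto.comp hlim
  rw [harg] at this
  exact this

/-- For every `α ∈ (0, 2/3)` one has `B(H_α) = 1`. -/
theorem result (α : ℝ) (h0 : 0 < α) (h1 : α < 2 / 3) : B (ClassH α) = 1 := by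
  have hlub : IsLUB {t : ℝ | ∃ f ∈ ClassH α, ∃ z : ℂ, ‖z‖ < 1 ∧ z ≠ 0 ∧ t = |arg (f z / z)|}
      (Real.pi / 2) := by
    constructor
    · rintro t ⟨f, hf, z, hz, hz0, rfl⟩
      exact Complex.abs_arg_le_pi_div_two_iff.mpr (hf.1.2.2.2 z hz hz0)
    · intro b hb
      have hF := F_mem h0 h1
      have hlim := tendsto_arg (c := α / 16) (e := α / 72) (by positivity) (by positivity)
      refine le_of_tendsto hlim ?_
      have hev : ∀ᶠ x : ℝ in 𝓝[<] (1 : ℝ), 0 < x := by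
        have : ∀ᶠ x : ℝ in 𝓝 (1 : ℝ), 0 < x := lt_mem_nhds (by norm_num)
        exact this.filter_mono nhdsWithin_le_nhds
      filter_upwards [self_mem_nhdsWithin, hev] with x hx hx0
      simp only [Set.mem_Iio] at hx
      have hxne : (x : ℂ) ≠ 0 := by exact_mod_cast hx0.ne'
      have hxn : ‖(x : ℂ)‖ < 1 := by
        rw [Complex.norm_real, Real.norm_of_nonneg hx0.le]
        exact hx
      have hmem := hb ⟨F (α / 16) (α / 72), hF, (x : ℂ), hxn, hxne, rfl⟩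
      have hdiv : F (α / 16) (α / 72) (x : ℂ) / (x : ℂ) = p (α / 16) (α / 72) (x : ℂ) := by
        simp only [F]
        field_simp
      rw [hdiv] at hmem
      exact (le_abs_self _).trans hmem
  have hs : sSup {t : ℝ | ∃ f ∈ ClassH α, ∃ z : ℂ, ‖z‖ < 1 ∧ z ≠ 0 ∧ t = |arg (f z / z)|} =
      Real.pi / 2 := hlub.csSup_eq ⟨_, F (α / 16) (α / 72), F_mem h0 h1, (1 / 2 : ℂ), by norm_num,
        by norm_num, rfl⟩
  unfold B
  rw [hs]
  have := Real.pi_pos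
  field_simp

end Pool.Agent.Results.MP_84a0b9_an.SharpArg
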